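import Pool.Agent.Lib.MP_c7af3c_ag.T2.H59.Loc
import Pool.Agent.Lib.MP_c7af3c_ag.T2C.IfaceA

/-!
# MP_c7af3c_ag, project T2C: module LOC (helper59)
-/

set_option autoImplicit false

namespace Pool.Agent.T2C.H59

open MvPolynomial Pool.Agent.Gen Pool.Agent.Sharp Pool.Agent.Edge

/-- Module LOC -/
theorem loc : LocStatement := by
  intro L _ Γ _ n c d D x j0 hn hd hj0 h0 v M hM hdel s r ε E G g η w hG hE hGc hu hker j
  classical
  obtain ⟨iv, -, hiv⟩ := Finset.exists_max_image Finset.univ (fun j => v (x j))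
    Finset.univ_nonempty
  have hle : ∀ j, v (x j) ≤ v (x iv) := fun j => hiv j (Finset.mem_univ j)
  have hvx : v (x iv) ≠ 0 := by
    have h1 := hle j0
    rw [hj0, map_one] at h1
    exact (lt_of_lt_of_le zero_lt_one h1).ne'
  have hiv0 : x iv ≠ 0 := (map_ne_zero v).1 hvx
  have key := T2.H59.loc_gen D x j0 hj0 h0 v M hM hdel ε E G g (Sum.elim η w)
    hG hE hGc hu (fun a => hker a) hiv0 hle
  have hcard : s + r = 3 := by
    have := Fintype.card_congr ε
    simp only [Fintype.card_sum, Fintype.card_fin, Fintype.card_unit] at this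
    omega
  have h1 : v (dt D x j0 ε η w) * v (x iv) ≤ M ^ (3 + c) * ∏ a, g a := by
    have h5 : 0 < v (x iv) ^ (n + 1) := pow_pos (zero_lt_iff.2 hvx) _
    refine le_of_mul_le_mul_left (a := v (x iv) ^ (n + 1)) ?_ h5
    calc v (x iv) ^ (n + 1) * (v (dt D x j0 ε η w) * v (x iv)) =
        v (dt D x j0 ε η w) * v (x iv) ^ (∑ m, d m) := by
          rw [hd, mul_left_comm, ← pow_succ]
      _ ≤ _ := by
          refine key.trans (le_of_eq ?_)
          rw [Fintype.card_sum, Fintype.card_fin, Fintype.card_fin, hcard, mul_assoc,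
            mul_right_comm, ← pow_add]
  exact (mul_le_mul' le_rfl (hle j)).trans h1

end Pool.Agent.T2C.H59
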