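import Pool.Agent.Lib.MP_c7af3c_ag.T2C.H59.Cnt
import Pool.Agent.Lib.MP_c7af3c_ag.T2C.NO3.Iface

/-!
# MP_c7af3c_ag, project T2C: module N3C (helper59)
-/

set_option autoImplicit false

namespace Pool.Agent.T2C.H59

open MvPolynomial Pool.Agent.Gen
open Pool.Agent.Sharp.H75 (dco coeff_dco dco_add dco_mul dco_X dco_C)
open Pool.Agent.T2C.NO3

section tools

variable {L : Type} [Field L]

/-- a linear map on polynomials, given on the monomials -/
theorem map_rs {τ τ' : Type} {S : Set (τ →₀ ℕ)} {S' : Set (τ' →₀ ℕ)}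
    (f : MvPolynomial τ L →ₗ[L] MvPolynomial τ' L)
    (hf : ∀ I ∈ S, f (monomial I 1) ∈ restrictSupport L S') {z : MvPolynomial τ L}
    (hz : z ∈ restrictSupport L S) : f z ∈ restrictSupport L S' := by
  rw [restrictSupport_eq_span] at hz
  have h1 : Submodule.span L ((fun I => monomial I (1 : L)) '' S) ≤
      (restrictSupport L S').comap f := by
    rw [Submodule.span_le]
    rintro _ ⟨I, hI, rfl⟩
    exact hf I hI
  exact h1 hz

theorem dco_rs {τ : Type} {S : Set (τ →₀ ℕ)} (δ : Derivation ℤ L L) {z : MvPolynomial τ L}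
    (hz : z ∈ restrictSupport L S) : dco δ z ∈ restrictSupport L S := by
  rw [mem_restrictSupport_iff] at hz ⊢
  intro I hI
  refine hz ?_
  rw [Finset.mem_coe, mem_support_iff] at hI ⊢
  intro h
  rw [coeff_dco, h, map_zero] at hI
  exact hI rfl

theorem finrank_rs (T : Finset (ℕ × ℕ)) (S : Set (Fin 2 →₀ ℕ))
    (hS : ∀ I, I ∈ S ↔ (I 0, I 1) ∈ T) :
    Module.finrank L (restrictSupport L S) = T.card ∧
      FiniteDimensional L (restrictSupport L S) := by
  have e : S ≃ T :=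
    Equiv.subtypeEquiv (Finsupp.equivFunOnFinite.trans (finTwoArrowEquiv ℕ)) hS
  constructor
  · rw [Module.finrank_eq_nat_card_basis (basisRestrictSupport L S), Nat.card_congr e,
      Nat.card_eq_fintype_card, Fintype.card_coe]
  · haveI : Finite S := Finite.of_equiv _ e.symm
    exact Module.Finite.of_basis (basisRestrictSupport L S)

variable {n s : ℕ} {τ : Type}

/-- linear forms which restrict to the `ψ i` -/
theorem exists_lin (ψ : Fin s → MvPolynomial τ L) {P : Fin s → Fin (n + 1) → L}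
    (hP : LinearIndependent L P) :
    ∃ l : Fin s → MvPolynomial (Fin (n + 1)) L, (∀ i, (l i).IsHomogeneous 1) ∧
      ∀ i, psub ψ P (l i) = ψ i := by
  classical
  obtain ⟨g, hg⟩ := LinearMap.exists_leftInverse_of_injective
    (Fintype.linearCombination L P)
    (LinearMap.ker_eq_bot.2 (linearIndependent_iff_injective_fintypeLinearCombination.1 hP))
  have hQ : ∀ i i', ∑ j, g (Pi.single j 1) i * P i' j = if i = i' then 1 else 0 := by
    intro i i'
    have h1 : g (P i') = Pi.single i' 1 := by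
      have h2 := LinearMap.congr_fun hg (Pi.single i' 1)
      rw [LinearMap.comp_apply, LinearMap.id_apply, Fintype.linearCombination_apply_single,
        one_smul] at h2
      exact h2
    have h3 : P i' = ∑ j, P i' j • (Pi.single j 1 : Fin (n + 1) → L) := by
      rw [← pi_eq_sum_univ' (P i')]
    have h4 : g (P i') i = ∑ j, g (Pi.single j 1) i * P i' j := by
      conv_lhs => rw [h3]
      rw [map_sum, Finset.sum_apply]
      refine Finset.sum_congr rfl fun j _ => ?_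
      rw [map_smul, Pi.smul_apply, smul_eq_mul, mul_comm]
    rw [← h4, h1, Pi.single_apply]
  refine ⟨fun i => ∑ j, C (g (Pi.single j 1) i) * X j, fun i => ?_, fun i => ?_⟩
  · refine IsHomogeneous.sum _ _ _ fun j _ => ?_
    simpa using (isHomogeneous_C _ (g (Pi.single j 1) i)).mul (isHomogeneous_X L j)
  · rw [map_sum]
    simp only [map_mul, psub_C, psub_X, Finset.mul_sum]
    rw [Finset.sum_comm]
    have h5 : ∀ i', ∑ j, C (g (Pi.single j 1) i) * (C (P i' j) * ψ i') =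
        if i = i' then ψ i' else 0 := by
      intro i'
      have : ∑ j, C (g (Pi.single j 1) i) * (C (P i' j) * ψ i') =
          C (∑ j, g (Pi.single j 1) i * P i' j) * ψ i' := by
        rw [map_sum, Finset.sum_mul]
        refine Finset.sum_congr rfl fun j _ => ?_
        rw [C_mul]
        ring
      rw [this, hQ i i']
      split_ifs <;> simp
    simp only [h5, Finset.sum_ite_eq, Finset.mem_univ, if_true]

theorem surj_rs (ψ : Fin s → MvPolynomial τ L) {P : Fin s → Fin (n + 1) → L} {e : ℕ}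
    {S : Set (τ →₀ ℕ)}
    (hS : ∀ I ∈ S, ∃ A : MvPolynomial (Fin (n + 1)) L, A.IsHomogeneous e ∧
      psub ψ P A = monomial I 1) {z : MvPolynomial τ L} (hz : z ∈ restrictSupport L S) :
    ∃ A : MvPolynomial (Fin (n + 1)) L, A.IsHomogeneous e ∧ psub ψ P A = z := by
  have h1 : restrictSupport L S ≤ (homogeneousSubmodule (Fin (n + 1)) L e).map
      (psub ψ P).toLinearMap := by
    rw [restrictSupport_eq_span, Submodule.span_le]
    rintro _ ⟨I, hI, rfl⟩
    obtain ⟨A, hA, hA'⟩ := hS I hI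
    exact ⟨A, hA, hA'⟩
  obtain ⟨A, hA, hA'⟩ := h1 hz
  exact ⟨A, hA, hA'⟩

theorem mono2 (I : Fin 2 →₀ ℕ) :
    (monomial I 1 : MvPolynomial (Fin 2) L) = X 0 ^ I 0 * X 1 ^ I 1 := by
  rw [monomial_eq, C_1, one_mul, Finsupp.prod_fintype _ _ fun i => pow_zero _,
    Fin.prod_univ_two]

theorem mem_rs {S : Set (Fin 2 →₀ ℕ)} (i j : ℕ)
    (h : ∀ I : Fin 2 →₀ ℕ, I 0 = i → I 1 = j → I ∈ S) :
    (X 0 ^ i * X 1 ^ j : MvPolynomial (Fin 2) L) ∈ restrictSupport L S := by
  have h1 : (X 0 ^ i * X 1 ^ j : MvPolynomial (Fin 2) L) =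
      monomial (Finsupp.single 0 i + Finsupp.single 1 j) 1 := by
    rw [X_pow_eq_monomial, X_pow_eq_monomial, monomial_mul, one_mul]
  rw [h1, restrictSupport_eq_span]
  refine Submodule.subset_span ⟨_, h _ ?_ ?_, rfl⟩
  · simp
  · simp

theorem mem_C_mul {S : Set (Fin 2 →₀ ℕ)} (a : L) {z : MvPolynomial (Fin 2) L}
    (hz : z ∈ restrictSupport L S) : C a * z ∈ restrictSupport L S := by
  rw [← smul_eq_C_mul]
  exact Submodule.smul_mem _ a hz

theorem pd0 (i j : ℕ) : pderiv 0 (X 0 ^ i * X 1 ^ j : MvPolynomial (Fin 2) L) =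
    C (i : L) * (X 0 ^ (i - 1) * X 1 ^ j) := by
  rw [Derivation.leibniz, Derivation.leibniz_pow, Derivation.leibniz_pow, pderiv_X_self,
    pderiv_X_of_ne (by decide)]
  simp only [smul_eq_mul, mul_zero, smul_zero, zero_add, nsmul_eq_mul, mul_one, map_natCast]
  ring

theorem pd1 (i j : ℕ) : pderiv 1 (X 0 ^ i * X 1 ^ j : MvPolynomial (Fin 2) L) =
    C (j : L) * (X 0 ^ i * X 1 ^ (j - 1)) := by
  rw [Derivation.leibniz, Derivation.leibniz_pow, Derivation.leibniz_pow, pderiv_X_self,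
    pderiv_X_of_ne (by decide)]
  simp only [smul_eq_mul, mul_zero, smul_zero, add_zero, nsmul_eq_mul, mul_one, map_natCast]
  ring

theorem xpd0 (i j : ℕ) : X 0 * pderiv 0 (X 0 ^ i * X 1 ^ j : MvPolynomial (Fin 2) L) =
    C (i : L) * (X 0 ^ i * X 1 ^ j) := by
  rw [pd0]
  rcases i with _ | i
  · simp
  · rw [Nat.add_sub_cancel, pow_succ]
    ring

theorem xpd1 (i j : ℕ) : X 1 * pderiv 1 (X 0 ^ i * X 1 ^ j : MvPolynomial (Fin 2) L) =
    C (j : L) * (X 0 ^ i * X 1 ^ j) := by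
  rw [pd1]
  rcases j with _ | j
  · simp
  · rw [Nat.add_sub_cancel, pow_succ]
    ring

end tools

section cone

variable (L : Type) [Field L]

/-- the exponents of weight at most `e` -/
def TW (e : ℕ) : Finset (ℕ × ℕ) :=
  (Finset.range (e / 2 + 1)).biUnion fun j => (Finset.range (e - 2 * j + 1)).image fun i => (i, j)

theorem mem_TW {e i j : ℕ} : (i, j) ∈ TW e ↔ i + 2 * j ≤ e := by
  unfold TW
  rw [Finset.mem_biUnion]
  constructor
  · rintro ⟨j', hj', h⟩
    rw [Finset.mem_image] at h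
    obtain ⟨i', hi', h⟩ := h
    rw [Prod.mk.injEq] at h
    rw [Finset.mem_range] at hj' hi'
    omega
  · intro h
    refine ⟨j, Finset.mem_range.2 (by omega), Finset.mem_image.2 ⟨i, Finset.mem_range.2 (by omega),
      rfl⟩⟩

theorem card_TW (e : ℕ) : (TW e).card = NW e := by
  unfold TW NW
  rw [Finset.card_biUnion]
  · refine Finset.sum_congr rfl fun j _ => ?_
    rw [Finset.card_image_of_injective, Finset.card_range]
    intro a b h
    exact (Prod.mk.inj h).1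
  · intro j _ j' _ hjj'
    rw [Function.onFun, Finset.disjoint_left]
    intro a ha ha'
    rw [Finset.mem_image] at ha ha'
    obtain ⟨i, -, rfl⟩ := ha
    obtain ⟨i', -, h⟩ := ha'
    exact hjj' (Prod.mk.inj h).2.symm

theorem finrank_wtd (e : ℕ) :
    Module.finrank L (wtd L e) = NW e ∧ FiniteDimensional L (wtd L e) := by
  have h := finrank_rs (L := L) (TW e) {I | I 0 + 2 * I 1 ≤ e} fun I => by
    rw [mem_TW]
    rfl
  rw [card_TW] at h
  exact h

variable {L}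

theorem mem_wtd {e i j : ℕ} (h : i + 2 * j ≤ e) :
    (X 0 ^ i * X 1 ^ j : MvPolynomial (Fin 2) L) ∈ wtd L e :=
  mem_rs i j fun I h0 h1 => by
    change I 0 + 2 * I 1 ≤ e
    omega

/-- the functions of the symmetries -/
noncomputable def aC (L : Type) [Field L] : Fin 8 → MvPolynomial (Fin 2) L :=
  ![1, 0, 0, 2 * X 0, 0, 0, 0, 0]

/-- the derivations of the symmetries -/
noncomputable def tC (L : Type) [Field L] :
    Fin 8 → Derivation L (MvPolynomial (Fin 2) L) (MvPolynomial (Fin 2) L) :=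
  ![0, pderiv 0, (X 0 : MvPolynomial (Fin 2) L) • pderiv 0,
    -(((X 0) ^ 2 : MvPolynomial (Fin 2) L) • pderiv 0 +
      (2 * X 0 * X 1 : MvPolynomial (Fin 2) L) • pderiv 1),
    (X 1 : MvPolynomial (Fin 2) L) • pderiv 1, pderiv 1,
    (X 0 : MvPolynomial (Fin 2) L) • pderiv 1, ((X 0) ^ 2 : MvPolynomial (Fin 2) L) • pderiv 1]

/-- the matrices of the symmetries -/
def mC (L : Type) [Field L] : Fin 8 → Fin 4 → Fin 4 → L :=
  ![![![1, 0, 0, 0], ![0, 1, 0, 0], ![0, 0, 1, 0], ![0, 0, 0, 1]],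
    ![![0, 0, 0, 0], ![1, 0, 0, 0], ![0, 2, 0, 0], ![0, 0, 0, 0]],
    ![![0, 0, 0, 0], ![0, 1, 0, 0], ![0, 0, 2, 0], ![0, 0, 0, 0]],
    ![![0, 2, 0, 0], ![0, 0, 1, 0], ![0, 0, 0, 0], ![0, 0, 0, 0]],
    ![![0, 0, 0, 0], ![0, 0, 0, 0], ![0, 0, 0, 0], ![0, 0, 0, 1]],
    ![![0, 0, 0, 0], ![0, 0, 0, 0], ![0, 0, 0, 0], ![1, 0, 0, 0]],
    ![![0, 0, 0, 0], ![0, 0, 0, 0], ![0, 0, 0, 0], ![0, 1, 0, 0]],
    ![![0, 0, 0, 0], ![0, 0, 0, 0], ![0, 0, 0, 0], ![0, 0, 1, 0]]]

theorem fin8 (k : Fin 8) : k = 0 ∨ k = 1 ∨ k = 2 ∨ k = 3 ∨ k = 4 ∨ k = 5 ∨ k = 6 ∨ k = 7 := by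
  revert k
  decide

theorem matC (k : Fin 8) (i : Fin 4) : aC L k * psiC L i + tC L k (psiC L i) =
    ∑ j, C (mC L k i j) * psiC L j := by
  have h01 : (pderiv (0 : Fin 2)) (X 1 : MvPolynomial (Fin 2) L) = 0 :=
    pderiv_X_of_ne (by decide)
  have h10 : (pderiv (1 : Fin 2)) (X 0 : MvPolynomial (Fin 2) L) = 0 :=
    pderiv_X_of_ne (by decide)
  have hC2 : (C (2 : L) : MvPolynomial (Fin 2) L) = 2 := map_ofNat C 2
  fin_cases k <;> fin_cases i <;>
    simp [aC, tC, mC, psiC, Fin.sum_univ_four, Derivation.leibniz_pow, h01, h10] <;>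
    (try rw [hC2]) <;> ring

theorem mC_indep : LinearIndependent L (mC L) := by
  rw [Fintype.linearIndependent_iff]
  intro b hb
  have h : ∀ i j, ∑ k, b k * mC L k i j = 0 := by
    intro i j
    have h1 := congrFun (congrFun hb i) j
    rw [Finset.sum_apply, Finset.sum_apply] at h1
    exact h1
  have h0 := h 0 0
  have h1 := h 1 0
  have h2 := h 1 1
  have h3 := h 1 2
  have h4 := h 3 3
  have h5 := h 3 0
  have h6 := h 3 1
  have h7 := h 3 2
  simp [mC, Fin.sum_univ_eight] at h0 h1 h2 h3 h4 h5 h6 h7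
  intro k
  fin_cases k
  · exact h0
  · exact h1
  · rw [h0, zero_add] at h2
    exact h2
  · exact h3
  · rw [h0, zero_add] at h4
    exact h4
  · exact h5
  · exact h6
  · exact h7

section symC

variable {i j ε : ℕ} (hI : i + 2 * j ≤ ε)

include hI

theorem symC1 : pderiv 0 (X 0 ^ i * X 1 ^ j : MvPolynomial (Fin 2) L) ∈ wtd L ε := by
  rw [pd0]
  exact mem_C_mul _ (mem_wtd (by omega))

theorem symC2 : X 0 * pderiv 0 (X 0 ^ i * X 1 ^ j : MvPolynomial (Fin 2) L) ∈ wtd L ε := by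
  rw [xpd0]
  exact mem_C_mul _ (mem_wtd hI)

theorem symC3 [CharZero L] :
    C ((ε : L) / 2) * (2 * X 0) * (X 0 ^ i * X 1 ^ j : MvPolynomial (Fin 2) L) +
    -((X 0) ^ 2 * pderiv 0 (X 0 ^ i * X 1 ^ j : MvPolynomial (Fin 2) L) +
      (2 * X 0 * X 1) * pderiv 1 (X 0 ^ i * X 1 ^ j : MvPolynomial (Fin 2) L)) ∈ wtd L ε := by
  have h1 : (2 : L) ≠ 0 := two_ne_zero
  have h3 : (C (2 : L) : MvPolynomial (Fin 2) L) = 2 := map_ofNat C 2
  have h4 : (X 0) ^ 2 * pderiv 0 (X 0 ^ i * X 1 ^ j : MvPolynomial (Fin 2) L) =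
      X 0 * (C (i : L) * (X 0 ^ i * X 1 ^ j)) := by
    rw [← xpd0]
    ring
  have h5 : (2 * X 0 * X 1) * pderiv 1 (X 0 ^ i * X 1 ^ j : MvPolynomial (Fin 2) L) =
      C 2 * X 0 * (C (j : L) * (X 0 ^ i * X 1 ^ j)) := by
    rw [← xpd1, h3]
    ring
  have h6 : C ((ε : L) / 2) * C 2 = (C (ε : L) : MvPolynomial (Fin 2) L) := by
    rw [← C_mul, div_mul_cancel₀ _ h1]
  rw [h4, h5]
  have h2 : C ((ε : L) / 2) * (2 * X 0) * (X 0 ^ i * X 1 ^ j : MvPolynomial (Fin 2) L) +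
      -(X 0 * (C (i : L) * (X 0 ^ i * X 1 ^ j)) +
        C 2 * X 0 * (C (j : L) * (X 0 ^ i * X 1 ^ j))) =
      C ((ε : L) - i - 2 * j) * (X 0 ^ (i + 1) * X 1 ^ j) := by
    rw [C_sub, C_sub, C_mul (a := (2 : L)), ← h6, h3, pow_succ]
    ring
  rw [h2]
  by_cases h7 : i + 2 * j = ε
  · have h8 : (ε : L) - i - 2 * j = 0 := by
      rw [← h7]
      push_cast
      ring
    rw [h8, C_0, zero_mul]
    exact zero_mem _
  · exact mem_C_mul _ (mem_wtd (by omega))

theorem symC4 : X 1 * pderiv 1 (X 0 ^ i * X 1 ^ j : MvPolynomial (Fin 2) L) ∈ wtd L ε := by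
  rw [xpd1]
  exact mem_C_mul _ (mem_wtd hI)

theorem symC5 : pderiv 1 (X 0 ^ i * X 1 ^ j : MvPolynomial (Fin 2) L) ∈ wtd L ε := by
  rw [pd1]
  exact mem_C_mul _ (mem_wtd (by omega))

theorem symC6 {r : ℕ} (hr : r ≤ 2) :
    (X 0) ^ r * pderiv 1 (X 0 ^ i * X 1 ^ j : MvPolynomial (Fin 2) L) ∈ wtd L ε := by
  rw [pd1]
  rcases j with _ | j
  · rw [Nat.cast_zero, C_0, zero_mul, mul_zero]
    exact zero_mem _
  · have h2 : (X 0) ^ r * (C ((j + 1 : ℕ) : L) * (X 0 ^ i * X 1 ^ (j + 1 - 1))) =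
        C ((j + 1 : ℕ) : L) * (X 0 ^ (i + r) * X 1 ^ j : MvPolynomial (Fin 2) L) := by
      rw [Nat.add_sub_cancel, pow_add]
      ring
    rw [h2]
    exact mem_C_mul _ (mem_wtd (by omega))

end symC

theorem symC [CharZero L] (k : Fin 8) {ε : ℕ} {z : MvPolynomial (Fin 2) L} (hz : z ∈ wtd L ε) :
    C ((ε : L) / 2) * aC L k * z + tC L k z ∈ wtd L ε := by
  have h := map_rs (S' := {I | I 0 + 2 * I 1 ≤ ε})
    (LinearMap.mulLeft L (C ((ε : L) / 2) * aC L k) + (tC L k).toLinearMap)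
    (fun I hI => ?_) hz
  · exact h
  · rw [LinearMap.add_apply, LinearMap.mulLeft_apply, mono2]
    change C ((ε : L) / 2) * aC L k * (X 0 ^ I 0 * X 1 ^ I 1) +
      tC L k (X 0 ^ I 0 * X 1 ^ I 1) ∈ wtd L ε
    have hI' : I 0 + 2 * I 1 ≤ ε := hI
    rcases fin8 k with rfl | rfl | rfl | rfl | rfl | rfl | rfl | rfl
    · rw [show aC L 0 = 1 from rfl, show tC L 0 = 0 from rfl, Derivation.zero_apply, mul_one,
        add_zero]
      exact mem_C_mul _ (mem_wtd hI')
    · rw [show aC L 1 = 0 from rfl, show tC L 1 = pderiv 0 from rfl, mul_zero, zero_mul,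
        zero_add]
      exact symC1 hI'
    · rw [show aC L 2 = 0 from rfl, show tC L 2 = (X 0 : MvPolynomial (Fin 2) L) • pderiv 0
        from rfl, mul_zero, zero_mul, zero_add, Derivation.smul_apply, smul_eq_mul]
      exact symC2 hI'
    · rw [show aC L 3 = 2 * X 0 from rfl, show tC L 3 =
        -(((X 0) ^ 2 : MvPolynomial (Fin 2) L) • pderiv 0 +
          (2 * X 0 * X 1 : MvPolynomial (Fin 2) L) • pderiv 1) from rfl,
        Derivation.neg_apply, Derivation.add_apply, Derivation.smul_apply,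
        Derivation.smul_apply, smul_eq_mul, smul_eq_mul]
      exact symC3 hI'
    · rw [show aC L 4 = 0 from rfl, show tC L 4 = (X 1 : MvPolynomial (Fin 2) L) • pderiv 1
        from rfl, mul_zero, zero_mul, zero_add, Derivation.smul_apply, smul_eq_mul]
      exact symC4 hI'
    · rw [show aC L 5 = 0 from rfl, show tC L 5 = pderiv 1 from rfl, mul_zero, zero_mul,
        zero_add]
      exact symC5 hI'
    · rw [show aC L 6 = 0 from rfl, show tC L 6 = (X 0 : MvPolynomial (Fin 2) L) • pderiv 1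
        from rfl, mul_zero, zero_mul, zero_add, Derivation.smul_apply, smul_eq_mul]
      have h1 := symC6 (L := L) hI' (r := 1) (by norm_num)
      rwa [pow_one] at h1
    · rw [show aC L 7 = 0 from rfl, show tC L 7 = ((X 0) ^ 2 : MvPolynomial (Fin 2) L) • pderiv 1
        from rfl, mul_zero, zero_mul, zero_add, Derivation.smul_apply, smul_eq_mul]
      exact symC6 hI' le_rfl

theorem dco_psiC (δ : Derivation ℤ L L) (i : Fin 4) : dco δ (psiC L i) = 0 := by
  have h1 : dco δ (1 : MvPolynomial (Fin 2) L) = 0 := by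
    rw [← C_1, dco_C, δ.map_one_eq_zero, C_0]
  fin_cases i
  · exact h1
  · exact dco_X δ 0
  · change dco δ (X 0 ^ 2 : MvPolynomial (Fin 2) L) = 0
    rw [pow_two, dco_mul, dco_X]
    ring
  · exact dco_X δ 1

/-- the spaces of the second factors -/
noncomputable def EC (L : Type) [Field L] {c : ℕ} (d : Fin c → ℕ) (m0 : Fin c) (e : ℕ)
    (m : Fin c) : Submodule L (MvPolynomial (Fin 2) L) :=
  if m ≠ m0 ∧ e ≤ 2 * d m then wtd L (2 * d m - e) else ⊥

theorem EC_pos {c : ℕ} {d : Fin c → ℕ} {m0 : Fin c} {e : ℕ} {m : Fin c}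
    (h : m ≠ m0 ∧ e ≤ 2 * d m) : EC L d m0 e m = wtd L (2 * d m - e) := if_pos h

theorem EC_neg {c : ℕ} {d : Fin c → ℕ} {m0 : Fin c} {e : ℕ} {m : Fin c}
    (h : ¬ (m ≠ m0 ∧ e ≤ 2 * d m)) : EC L d m0 e m = ⊥ := if_neg h

/-- Module N3C -/
theorem n3c : N3CStatement := by
  intro L _ _ n c d D u hu m0 e h g hm0 hg0 hh hh0 hF hg hgz
  classical
  obtain ⟨l, hl1, hl2⟩ := exists_lin (psiC L) hu
  have fE := fun e => (finrank_wtd L e).2
  have fE' : ∀ m, FiniteDimensional L (EC L d m0 e m) := by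
    intro m
    by_cases h1 : m ≠ m0 ∧ e ≤ 2 * d m
    · rw [EC_pos h1]
      exact fE _
    · rw [EC_neg h1]
      infer_instance
  have hgz' : ∀ m, ¬ (m ≠ m0 ∧ e ≤ 2 * d m) → g m = 0 := by
    intro m h1
    by_cases h2 : m = m0
    · rw [h2, hg0]
    · exact hgz m fun h3 => h1 ⟨h2, h3⟩
  have hgE : ∀ m, g m ∈ EC L d m0 e m := by
    intro m
    by_cases h1 : m ≠ m0 ∧ e ≤ 2 * d m
    · rw [EC_pos h1]
      exact hg m
    · rw [EC_neg h1, hgz' m h1]
      exact zero_mem _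
  have hB : ∀ m, ∀ z ∈ wtd L (2 * d m), ∃ A : MvPolynomial (Fin (n + 1)) L,
      A.IsHomogeneous (d m) ∧ psub (psiC L) u A = z := by
    intro m z hz
    refine surj_rs (psiC L) (S := {I | I 0 + 2 * I 1 ≤ 2 * d m}) (fun I hI => ?_) hz
    have hI' : I 0 + 2 * I 1 ≤ 2 * d m := hI
    refine ⟨l 0 ^ (d m - I 0 % 2 - I 0 / 2 - I 1) * (l 1 ^ (I 0 % 2) * (l 2 ^ (I 0 / 2) *
      l 3 ^ I 1)), ?_, ?_⟩
    · have h1 := ((hl1 0).pow (d m - I 0 % 2 - I 0 / 2 - I 1)).mul (((hl1 1).pow (I 0 % 2)).mul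
        (((hl1 2).pow (I 0 / 2)).mul ((hl1 3).pow (I 1))))
      have h2 : 1 * (d m - I 0 % 2 - I 0 / 2 - I 1) + (1 * (I 0 % 2) + (1 * (I 0 / 2) +
          1 * I 1)) = d m := by omega
      rwa [h2] at h1
    · rw [map_mul, map_mul, map_mul, map_pow, map_pow, map_pow, map_pow, hl2, hl2, hl2, hl2,
        mono2, show psiC L 0 = 1 from rfl, show psiC L 1 = X 0 from rfl,
        show psiC L 2 = X 0 ^ 2 from rfl, show psiC L 3 = X 1 from rfl, one_pow, one_mul,
        ← pow_mul, ← mul_assoc, ← pow_add]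
      congr 2
      omega
  have hEd : ∀ (δ : Derivation ℤ L L) m, ∀ z ∈ EC L d m0 e m, dco δ z ∈ EC L d m0 e m := by
    intro δ m z hz
    by_cases h1 : m ≠ m0 ∧ e ≤ 2 * d m
    · rw [EC_pos h1] at hz ⊢
      exact dco_rs δ hz
    · rw [EC_neg h1, Submodule.mem_bot] at hz ⊢
      rw [hz]
      exact Pool.Agent.Sharp.H75.dco_zero δ
  have hFm : ∀ m, psub (psiC L) u (D.F m) = h * g m := by
    intro m
    by_cases h1 : m = m0
    · subst h1
      rw [hg0, mul_zero]
      exact hm0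
    · exact hF m h1
  have hS : ∀ k, Sym d (psiC L) (wtd L e) (EC L d m0 e) h g ((e : L) / 2) (aC L k) (tC L k)
      (mC L k) := by
    intro k
    refine ⟨matC k, symC k hh, fun m => ?_⟩
    by_cases h1 : m ≠ m0 ∧ e ≤ 2 * d m
    · have h2 : ((d m : L) - (e : L) / 2) = ((2 * d m - e : ℕ) : L) / 2 := by
        rw [Nat.cast_sub h1.2]
        push_cast
        ring
      rw [h2, EC_pos h1]
      exact symC k (hg m)
    · rw [hgz' m h1, mul_zero, map_zero, add_zero]
      exact zero_mem _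
  have key := count (psiC L) u D (ι := Fin 8) hu dco_psiC (fun m => wtd L (2 * d m)) hB
    (wtd L e) (EC L d m0 e) (fun δ z hz => dco_rs δ hz) hEd hh hh0 hgE hFm
    (fun _ => (e : L) / 2) (aC L) (tC L) (mC L) hS mC_indep
  have h1 : ∀ m, Module.finrank L (EC L d m0 e m) =
      if m ≠ m0 ∧ e ≤ 2 * d m then NW (2 * d m - e) else 0 := by
    intro m
    split_ifs with h1
    · rw [EC_pos h1]
      exact (finrank_wtd L _).1
    · rw [EC_neg h1]
      exact finrank_bot L _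
  simp only [(finrank_wtd L _).1, Fintype.card_fin, h1] at key
  omega

end cone

end Pool.Agent.T2C.H59
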