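import Pool.Agent.Lib.MP_c7af3c_ag.T2.H59.Taub
import Pool.Agent.Lib.MP_c7af3c_ag.T2C.IfaceA

/-!
# MP_c7af3c_ag, project T2C: module TAUB (helper59)
-/

set_option autoImplicit false

namespace Pool.Agent.T2C.H59

open MvPolynomial Pool.Agent.Gen Pool.Agent.Sharp Pool.Agent.Edge

theorem adm_mul {L : Type} [Field L] {n c : ℕ} {d : Fin c → ℕ}
    {A : Fin c → MvPolynomial (Fin (n + 1)) L} (hA : Adm d A) (m : Fin c)
    {l : MvPolynomial (Fin (n + 1)) L} (hl : l.IsHomogeneous 1) :
    (A m * l).IsHomogeneous (d m) := by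
  by_cases h0 : A m = 0
  · rw [h0, zero_mul]
    exact isHomogeneous_zero _ _ _
  · have h1 : (A m).IsHomogeneous (d m - 1) := by
      intro I hI
      have h2 := hA m I hI
      have h3 : Finsupp.weight 1 I = I.degree := by
        rw [Finsupp.degree_eq_weight_one]
        rfl
      omega
    obtain ⟨I, hI⟩ := ne_zero_iff.1 h0
    have h2 := hA m I hI
    have h3 := h1.mul hl
    have h4 : d m - 1 + 1 = d m := by omega
    rwa [h4] at h3

/-- Module TAUB -/
theorem taub : TaubStatement := by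
  intro _ Ω _ _ k Γ _ S n c d D x j0 _ hd h s r ε η hη A hA i
  have h1 := T2.H59.taub_gen (S := S) (D := D) (x := x) h hd ε η (fun a => ?_) A
    (fun m l hl => adm_mul hA.1 m hl) hA.2 i
  · exact h1
  · rcases hη a with ⟨p, q, hpq⟩ | ⟨G, hG, hGx, hGe⟩
    · rw [hpq]
      exact T2.H59.bcol_W h p q
    · rw [hGe]
      exact T2.H59.bcol_V (S := S) (D := D) (x := x) h G (fun m => (hG m).1)
        (fun m I => (hG m).2 I) hGx

end Pool.Agent.T2C.H59
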