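import Pool.Agent.Lib.MP_c7af3c_ag.T2C.IfaceB
import Pool.Agent.Lib.MP_c7af3c_ag.LINES.H19.Lsur

/-!
# MP_c7af3c_ag, project T2C: module NQUAD (helper59)
-/

set_option autoImplicit false

namespace Pool.Agent.T2C.H59

open MvPolynomial Pool.Agent.Gen Pool.Agent.Sharp Pool.Agent.Edge
open Pool.Agent.T2C.H8 (T3 HomC sm mulC)
open Pool.Agent.Sharp.H75 (af)
open Pool.Agent.Sharp.H54 (lineP_eval lineP_mul)

section poly

variable {K : Type} [Field K]

/-- the top coefficient of the restriction to a line -/
theorem lineP_coeff_top {G : MvPolynomial (Fin (2 + 1)) K} {e : ℕ} (hG : G.IsHomogeneous e)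
    (w p : Fin (2 + 1) → K) : (lineP G w p).coeff e = eval p G := by
  classical
  have h1 : lineP G w p = ∑ I ∈ G.support, Polynomial.C (coeff I G) *
      ∏ j, (Polynomial.C (w j) + Polynomial.X * Polynomial.C (p j)) ^ (I j) := by
    unfold lineP
    rw [aeval_def, eval₂_eq']
    rfl
  rw [h1, Polynomial.finset_sum_coeff, eval_eq']
  refine Finset.sum_congr rfl fun I hI => ?_
  have h2 : I 0 * 1 + I 1 * 1 + I 2 * 1 = e := by
    have h3 := hG (mem_support_iff.1 hI)
    have h4 : I.degree = e := by rwa [Finsupp.degree_eq_weight_one]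
    rw [← h4, Finsupp.degree_eq_sum, Fin.sum_univ_three]
    ring
  rw [Polynomial.coeff_C_mul]
  congr 1
  have hd : ∀ j, (Polynomial.C (w j) + Polynomial.X * Polynomial.C (p j)).natDegree ≤ 1 := by
    intro j
    refine (Polynomial.natDegree_add_le _ _).trans (max_le ?_ ?_)
    · rw [Polynomial.natDegree_C]; exact Nat.zero_le _
    · refine (Polynomial.natDegree_mul_C_le _ _).trans Polynomial.natDegree_X_le
  have hc : ∀ j, (Polynomial.C (w j) + Polynomial.X * Polynomial.C (p j)).coeff 1 = p j := by
    intro j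
    rw [Polynomial.coeff_add, Polynomial.coeff_mul_C, Polynomial.coeff_X_one, one_mul,
      Polynomial.coeff_C, if_neg one_ne_zero, zero_add]
  have hp : ∀ j, ((Polynomial.C (w j) + Polynomial.X * Polynomial.C (p j)) ^ (I j)).natDegree ≤
      I j * 1 := fun j => Polynomial.natDegree_pow_le_of_le _ (hd j)
  rw [Fin.prod_univ_three, Fin.prod_univ_three, ← h2,
    Polynomial.coeff_mul_add_eq_of_natDegree_le (Polynomial.natDegree_mul_le_of_le (hp 0) (hp 1)) (hp 2),
    Polynomial.coeff_mul_add_eq_of_natDegree_le (hp 0) (hp 1),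
    Polynomial.coeff_pow_of_natDegree_le (hd 0), Polynomial.coeff_pow_of_natDegree_le (hd 1),
    Polynomial.coeff_pow_of_natDegree_le (hd 2), hc, hc, hc]

theorem lineP_const [CharZero K] {A : MvPolynomial (Fin (2 + 1)) K} {w p : Fin (2 + 1) → K}
    (hA : ∀ t : K, eval (fun j => w j + t * p j) A = eval w A) :
    lineP A w p = Polynomial.C (eval w A) := by
  refine Polynomial.funext fun t => ?_
  rw [lineP_eval, hA t, Polynomial.eval_C]

/-- a cone `A` with a vertex which is not on the conic -/
theorem cone [CharZero K] {q f : MvPolynomial (Fin (2 + 1)) K} (hq : q.IsHomogeneous 2)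
    (hf : f.IsHomogeneous 2) {p : Fin (2 + 1) → K} (hp : eval p q ≠ 0)
    (hne : ∀ e, f ≠ C e * q) {A B : MvPolynomial (Fin (2 + 1)) K}
    (hA : ∀ (w : Fin (2 + 1) → K) (t : K), eval (fun j => w j + t * p j) A = eval w A)
    (h : A * f = q * B) : A = 0 := by
  set e := eval p f / eval p q with he
  set r := f - C e * q with hr
  have hr2 : r.IsHomogeneous 2 := hf.sub (by
    have h1 := (isHomogeneous_C (Fin (2 + 1)) e).mul hq
    rwa [zero_add] at h1)
  have hr0 : r ≠ 0 := fun h0 => hne e (sub_eq_zero.1 h0)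
  have hrp : eval p r = 0 := by
    rw [hr, map_sub, map_mul, eval_C, he, div_mul_cancel₀ _ hp, sub_self]
  have h1 : A * r = q * (B - C e * A) := by
    rw [hr, mul_sub, h]
    ring
  have h2 : A * r = 0 := by
    refine MvPolynomial.funext fun w => ?_
    have h3 := congrArg (fun G => lineP G w p) h1
    simp only [lineP_mul] at h3
    rw [lineP_const (hA w)] at h3
    have hq2 : (lineP q w p).coeff 2 ≠ 0 := by rwa [lineP_coeff_top hq]
    have hr3 : (lineP r w p).natDegree ≤ 1 := by
      have h5 := Lines.H19.natDegree_lineP_le (x := w) (y := p) hr2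
      by_contra h6
      have h7 : (lineP r w p).natDegree = 2 := by omega
      have h8 : (lineP r w p).coeff 2 = 0 := by rw [lineP_coeff_top hr2, hrp]
      have h16 : (lineP r w p).leadingCoeff = 0 := by
        rw [Polynomial.leadingCoeff, h7]
        exact h8
      rw [Polynomial.leadingCoeff_eq_zero] at h16
      rw [h16, Polynomial.natDegree_zero] at h7
      exact absurd h7 (by norm_num)
    have h9 : lineP (B - C e * A) w p = 0 := by
      by_contra h10
      have h11 : lineP q w p ≠ 0 := fun h0 => hq2 (by rw [h0, Polynomial.coeff_zero])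
      have h12 := congrArg Polynomial.natDegree h3
      rw [Polynomial.natDegree_mul h11 h10] at h12
      have h13 := Polynomial.le_natDegree_of_ne_zero hq2
      have h14 := Polynomial.natDegree_C_mul_le (eval w A) (lineP r w p)
      omega
    rw [h9, mul_zero] at h3
    have h15 := congrArg (Polynomial.eval 0) h3
    rw [Polynomial.eval_mul, Polynomial.eval_C, lineP_eval, Polynomial.eval_zero] at h15
    rw [map_mul, map_zero]
    simpa using h15
  exact (mul_eq_zero.1 h2).resolve_right hr0

theorem fin3 (i : Fin (2 + 1)) : i + 1 ≠ i ∧ i + 2 ≠ i ∧ i + 1 ≠ i + 2 := by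
  revert i
  decide

/-- the powers of two linear forms through a point -/
theorem forms [CharZero K] {p : Fin (2 + 1) → K} (hp : p ≠ 0) :
    ∃ u v : MvPolynomial (Fin (2 + 1)) K, u.IsHomogeneous 1 ∧ v.IsHomogeneous 1 ∧
      (∀ (w : Fin (2 + 1) → K) (t : K), eval (fun j => w j + t * p j) u = eval w u) ∧
      (∀ (w : Fin (2 + 1) → K) (t : K), eval (fun j => w j + t * p j) v = eval w v) ∧
      ∀ s : K, ∃ w : Fin (2 + 1) → K, eval w u = s ∧ eval w v = 1 := by
  classical
  obtain ⟨i, hi⟩ := Function.ne_iff.1 hp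
  have hi' : p i ≠ 0 := hi
  have h01 := fin3 i
  have hom : ∀ k, (C (p i) * X k - C (p k) * X i : MvPolynomial (Fin (2 + 1)) K).IsHomogeneous
      1 := fun k => by
    have h1 := (isHomogeneous_C (Fin (2 + 1)) (p i)).mul (isHomogeneous_X K k)
    have h2 := (isHomogeneous_C (Fin (2 + 1)) (p k)).mul (isHomogeneous_X K i)
    rw [zero_add] at h1 h2
    exact h1.sub h2
  have hev : ∀ k (w : Fin (2 + 1) → K) (t : K), eval (fun j => w j + t * p j)
      (C (p i) * X k - C (p k) * X i : MvPolynomial (Fin (2 + 1)) K) =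
      eval w (C (p i) * X k - C (p k) * X i) := fun k w t => by
    simp only [map_sub, map_mul, eval_C, eval_X]
    ring
  refine ⟨C (p i) * X (i + 1) - C (p (i + 1)) * X i, C (p i) * X (i + 2) - C (p (i + 2)) * X i,
    hom _, hom _, hev _, hev _, fun s => ?_⟩
  refine ⟨fun k => if k = i + 1 then s / p i else if k = i + 2 then 1 / p i else 0, ?_, ?_⟩
  · simp only [map_sub, map_mul, eval_C, eval_X, if_pos, if_neg h01.1.symm,
      if_neg h01.2.1.symm]
    field_simp
    ring
  · simp only [map_sub, map_mul, eval_C, eval_X, if_pos, if_neg h01.1.symm,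
      if_neg h01.2.1.symm, if_neg h01.2.2.symm]
    field_simp
    ring

/-- the combinations of the powers of two linear forms through a point -/
theorem comb [CharZero K] {u v : MvPolynomial (Fin (2 + 1)) K}
    (hw : ∀ s : K, ∃ w : Fin (2 + 1) → K, eval w u = s ∧ eval w v = 1) {N k : ℕ}
    (a : Fin N → K) (h : ∑ i, C (a i) * (u ^ (i : ℕ) * v ^ (k - i)) = 0) : a = 0 := by
  classical
  have h1 : ∑ i : Fin N, Polynomial.C (a i) * Polynomial.X ^ (i : ℕ) = 0 := by
    refine Polynomial.funext fun s => ?_
    obtain ⟨w, hu, hv⟩ := hw s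
    have h2 := congrArg (eval w) h
    rw [map_sum, map_zero] at h2
    rw [Polynomial.eval_finset_sum, Polynomial.eval_zero, ← h2]
    refine Finset.sum_congr rfl fun i _ => ?_
    rw [Polynomial.eval_mul, Polynomial.eval_C, Polynomial.eval_pow, Polynomial.eval_X, map_mul,
      map_mul, map_pow, map_pow, eval_C, hu, hv, one_pow, mul_one]
  funext j
  have h3 := congrArg (fun P => Polynomial.coeff P (j : ℕ)) h1
  simp only [Polynomial.finset_sum_coeff, Polynomial.coeff_C_mul, Polynomial.coeff_X_pow,
    Polynomial.coeff_zero] at h3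
  rw [Finset.sum_eq_single j] at h3
  · simpa using h3
  · intro b _ hb
    rw [if_neg fun h4 => hb (Fin.ext h4.symm), mul_zero]
  · intro h4
    exact absurd (Finset.mem_univ _) h4

end poly

section alg

variable {K : Type} [Field K] [CharZero K]

theorem af_single (v a : Fin (2 + 1) → K) (q : MvPolynomial (Fin (2 + 1)) K) :
    af (fun j i => v j * a i) q = H75.lf a * ∑ j, C (v j) * pderiv j q := by
  unfold af
  rw [Finset.mul_sum]
  refine Finset.sum_congr rfl fun j _ => ?_
  have h1 : H75.lf (fun i => v j * a i) = C (v j) * H75.lf a := by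
    unfold H75.lf
    rw [Finset.mul_sum]
    refine Finset.sum_congr rfl fun i _ => ?_
    rw [C_mul]
    ring
  rw [h1]
  ring

/-- the matrices which fix the point `y` -/
def Py (y : Fin (2 + 1) → K) : Submodule K (Fin (2 + 1) → Fin (2 + 1) → K) where
  carrier := {L | ∃ e, ∀ j, ∑ i, L j i * y i = e * y j}
  add_mem' := by
    rintro L L' ⟨e, he⟩ ⟨e', he'⟩
    refine ⟨e + e', fun j => ?_⟩
    simp only [Pi.add_apply, add_mul, Finset.sum_add_distrib, he, he']
  zero_mem' := ⟨0, fun j => by simp⟩
  smul_mem' := by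
    rintro a L ⟨e, he⟩
    refine ⟨a * e, fun j => ?_⟩
    simp only [Pi.smul_apply, smul_eq_mul, mul_assoc, ← Finset.mul_sum, he]

/-- the matrices which fix the point `y` and the conic `q` -/
noncomputable def Gq (q : MvPolynomial (Fin (2 + 1)) K) (y : Fin (2 + 1) → K) :
    Submodule K (Fin (2 + 1) → Fin (2 + 1) → K) where
  carrier := {L | (∃ e, ∀ j, ∑ i, L j i * y i = e * y j) ∧ ∃ e, af L q = C e * q}
  add_mem' := by
    rintro L L' ⟨⟨e, he⟩, e1, he1⟩ ⟨⟨e', he'⟩, e1', he1'⟩
    refine ⟨⟨e + e', fun j => ?_⟩, e1 + e1', ?_⟩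
    · simp only [Pi.add_apply, add_mul, Finset.sum_add_distrib, he, he']
    · have h : af (L + L') q = af L q + af L' q := by
        unfold af
        rw [← Finset.sum_add_distrib]
        refine Finset.sum_congr rfl fun j _ => ?_
        rw [← add_mul]
        congr 1
        unfold H75.lf
        rw [← Finset.sum_add_distrib]
        refine Finset.sum_congr rfl fun i _ => ?_
        rw [Pi.add_apply, Pi.add_apply, C_add, add_mul]
      rw [h, he1, he1', C_add, add_mul]
  zero_mem' := by
    refine ⟨⟨0, fun j => by simp⟩, 0, ?_⟩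
    unfold af H75.lf
    simp
  smul_mem' := by
    rintro a L ⟨⟨e, he⟩, e1, he1⟩
    refine ⟨⟨a * e, fun j => ?_⟩, a * e1, ?_⟩
    · simp only [Pi.smul_apply, smul_eq_mul, mul_assoc, ← Finset.mul_sum, he]
    · have h : af (a • L) q = C a * af L q := by
        unfold af
        rw [Finset.mul_sum]
        refine Finset.sum_congr rfl fun j _ => ?_
        rw [← mul_assoc]
        congr 1
        unfold H75.lf
        rw [Finset.mul_sum]
        refine Finset.sum_congr rfl fun i _ => ?_
        rw [Pi.smul_apply, Pi.smul_apply, smul_eq_mul, C_mul]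
        ring
      rw [h, he1, C_mul]
      ring

theorem finrank_Py {y : Fin (2 + 1) → K} (hy : y ≠ 0) : Module.finrank K (Py y) ≤ 7 := by
  classical
  let T : (Fin (2 + 1) → Fin (2 + 1) → K) →ₗ[K] (Fin (2 + 1) → K) :=
    { toFun := fun L j => ∑ i, L j i * y i
      map_add' := fun L L' => by
        funext j
        simp only [Pi.add_apply, add_mul, Finset.sum_add_distrib]
      map_smul' := fun a L => by
        funext j
        simp only [Pi.smul_apply, smul_eq_mul, mul_assoc, ← Finset.mul_sum, RingHom.id_apply] }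
  have hT : Function.Surjective T := by
    intro w
    obtain ⟨i, hi⟩ := Function.ne_iff.1 hy
    have hi' : y i ≠ 0 := hi
    refine ⟨fun j k => if k = i then w j / y i else 0, ?_⟩
    funext j
    change ∑ k, (if k = i then w j / y i else 0) * y k = w j
    rw [Finset.sum_eq_single i]
    · rw [if_pos rfl, div_mul_cancel₀ _ hi']
    · intro k _ hk
      rw [if_neg hk, zero_mul]
    · intro h
      exact absurd (Finset.mem_univ _) h
  have h1 : Module.finrank K (LinearMap.ker T) + 3 = 9 := by
    have h2 := LinearMap.finrank_range_add_finrank_ker T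
    rw [LinearMap.range_eq_top.2 hT, finrank_top, Module.finrank_fin_fun] at h2
    have h3 : Module.finrank K (Fin (2 + 1) → Fin (2 + 1) → K) = 9 := by
      rw [Module.finrank_pi_fintype]
      simp
    rw [h3] at h2
    omega
  have h4 := LinearMap.finrank_range_add_finrank_ker (T.domRestrict (Py y))
  have h5 : Module.finrank K (LinearMap.range (T.domRestrict (Py y))) ≤ 1 := by
    have h6 : LinearMap.range (T.domRestrict (Py y)) ≤ Submodule.span K {y} := by
      rintro _ ⟨⟨L, e, he⟩, rfl⟩
      refine Submodule.mem_span_singleton.2 ⟨e, ?_⟩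
      funext j
      exact (he j).symm
    refine (Submodule.finrank_mono h6).trans ?_
    rw [finrank_span_singleton hy]
  have h7 : Module.finrank K (LinearMap.ker (T.domRestrict (Py y))) ≤
      Module.finrank K (LinearMap.ker T) := by
    refine LinearMap.finrank_le_finrank_of_injective
      (f := ((Py y).subtype.comp (LinearMap.ker (T.domRestrict (Py y))).subtype).codRestrict
        (LinearMap.ker T) fun L => ?_) ?_
    · have := L.2
      rwa [LinearMap.mem_ker, LinearMap.domRestrict_apply] at this
    · intro a b hab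
      have := congrArg Subtype.val hab
      exact Subtype.ext (Subtype.ext this)
  omega

theorem finrank_Gq {q : MvPolynomial (Fin (2 + 1)) K} (hq : q.IsHomogeneous 2) (hq0 : q ≠ 0)
    {y : Fin (2 + 1) → K} (hy : y ≠ 0) : Module.finrank K (Gq q y) ≤ 6 := by
  classical
  have hle : Gq q y ≤ Py y := fun L hL => hL.1
  have hne : Gq q y ≠ Py y := by
    intro heq
    obtain ⟨i, hi⟩ := Function.ne_iff.1 hy
    have hi' : y i ≠ 0 := hi
    have h01 := fin3 i
    obtain ⟨j, hj⟩ : ∃ j, pderiv j q ≠ 0 := by
      by_contra h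
      push Not at h
      have h1 := hq.sum_X_mul_pderiv
      rw [Finset.sum_eq_zero fun j _ => by rw [h j, mul_zero]] at h1
      have h2 : (2 : ℕ) • q = 0 := h1.symm
      rw [smul_eq_zero] at h2
      exact hq0 (h2.resolve_left (by norm_num))
    set a : Fin (2 + 1) → Fin (2 + 1) → K := fun k m =>
      y i * (if m = k then 1 else 0) - y k * (if m = i then 1 else 0) with ha
    have hay : ∀ k, ∑ m, a k m * y m = 0 := by
      intro k
      simp only [ha, sub_mul, mul_assoc, ite_mul, one_mul, zero_mul, Finset.sum_sub_distrib,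
        ← Finset.mul_sum, Finset.sum_ite_eq', Finset.mem_univ, if_true]
      ring
    have hev : ∀ k k', eval (Pi.single k' 1) (H75.lf (a k)) = a k k' := by
      intro k k'
      unfold H75.lf
      rw [map_sum, Finset.sum_eq_single k']
      · rw [map_mul, eval_C, eval_X, Pi.single_eq_same, mul_one]
      · intro b _ hb
        rw [map_mul, eval_C, eval_X, Pi.single_eq_of_ne hb, mul_zero]
      · intro h
        exact absurd (Finset.mem_univ _) h
    have hg : ∀ k, ∃ e, H75.lf (a k) * pderiv j q = C e * q := by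
      intro k
      have h1 : (fun m m' => (if m = j then 1 else 0) * a k m') ∈ Py y := by
        refine ⟨0, fun m => ?_⟩
        simp only [mul_assoc, ← Finset.mul_sum, hay, mul_zero, zero_mul]
      rw [← heq] at h1
      obtain ⟨-, e, he⟩ := h1
      refine ⟨e, ?_⟩
      rw [← he, af_single]
      congr 1
      rw [Finset.sum_eq_single j]
      · rw [if_pos rfl, C_1, one_mul]
      · intro b _ hb
        rw [if_neg hb, C_0, zero_mul]
      · intro h
        exact absurd (Finset.mem_univ _) h
    obtain ⟨e1, he1⟩ := hg (i + 1)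
    obtain ⟨e2, he2⟩ := hg (i + 2)
    have h1 : C e2 * H75.lf (a (i + 1)) = C e1 * H75.lf (a (i + 2)) := by
      refine mul_right_cancel₀ hj ?_
      rw [mul_assoc, mul_assoc, he1, he2]
      ring
    have h2 := congrArg (eval (Pi.single (i + 2) 1)) h1
    rw [map_mul, map_mul, hev, hev, eval_C, eval_C] at h2
    have h3 : a (i + 1) (i + 2) = 0 := by
      simp only [ha, if_neg h01.2.2.symm, if_neg h01.2.1, mul_zero, sub_zero]
    have h4 : a (i + 2) (i + 2) = y i := by
      simp only [ha, if_neg h01.2.1, if_true, mul_zero, sub_zero, mul_one]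
    rw [h3, h4, mul_zero] at h2
    have h5 : e1 = 0 := (mul_eq_zero.1 h2.symm).resolve_right hi'
    rw [h5, C_0, zero_mul] at he1
    have h6 := (mul_eq_zero.1 he1).resolve_right hj
    have h7 := congrArg (eval (Pi.single (i + 1) 1)) h6
    rw [hev, map_zero] at h7
    have h8 : a (i + 1) (i + 1) = y i := by
      simp only [ha, if_neg h01.1, if_true, mul_zero, sub_zero, mul_one]
    exact hi' (h8.symm.trans h7)
  have h1 := Submodule.finrank_lt_finrank_of_lt (lt_of_le_of_ne hle hne)
  have h2 := finrank_Py hy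
  omega

end alg

section fin

variable {K : Type} [Field K]

/-- the space of matrices of forms is finite dimensional -/
theorem finite_BF (σ : Type) [Finite σ] {c : ℕ} (d : Fin c → ℕ) :
    FiniteDimensional K (BF K σ d) := by
  classical
  have : ∀ t : ℕ, FiniteDimensional K (homogeneousSubmodule σ K t) := fun t =>
    Module.Finite.iff_fg.2 (homogeneousSubmodule_fg σ K t)
  let φ : BF K σ d →ₗ[K] (∀ m m' : Fin c, homogeneousSubmodule σ K (d m - d m')) :=
    { toFun := fun B m m' => ⟨B.1 m m', by
        by_cases h : d m' ≤ d m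
        · exact (B.2 m m').1 h
        · rw [(B.2 m m').2 (not_le.1 h)]
          exact isHomogeneous_zero _ _ _⟩
      map_add' := fun _ _ => rfl
      map_smul' := fun _ _ => rfl }
  refine FiniteDimensional.of_injective φ fun B B' h => ?_
  refine Subtype.ext ?_
  funext m m'
  exact congrArg Subtype.val (congrFun (congrFun h m) m')

end fin

theorem card_sig {n c : ℕ} {d : Fin c → ℕ} (hT : Ty n c d) :
    Fintype.card (Σ m : Fin c, Fin (d m - 1)) = 5 := by
  rw [Fintype.card_sigma]
  simp only [Fintype.card_fin]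
  have h1 : ∑ m, (d m - 1) + c = ∑ m, d m := by
    have h2 : ∑ m, d m = ∑ m : Fin c, ((d m - 1) + 1) :=
      Finset.sum_congr rfl fun m _ => by
        have := hT.two m
        omega
    rw [h2, Finset.sum_add_distrib]
    simp
  have h3 := hT.sum
  omega

/-- Module NQUAD -/
theorem nquad : NquadStatement := by
  intro K _ _ _ n c d q f y hT hc2 hc4 hN M hM m hm
  classical
  by_contra hne
  push Not at hne
  obtain ⟨p, hp⟩ : ∃ p : Fin (2 + 1) → K, eval p q ≠ 0 := by
    by_contra h
    push Not at h
    refine hN.q0 (MvPolynomial.funext fun w => ?_)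
    rw [h w, map_zero]
  have hp0 : p ≠ 0 := by
    intro h
    apply hp
    have h1 := lineP_coeff_top hN.hq 0 p
    rw [h] at h1 ⊢
    have h2 : lineP q (0 : Fin (2 + 1) → K) 0 = Polynomial.C (eval 0 q) := by
      refine lineP_const fun t => ?_
      congr 2
      funext j
      simp
    rw [h2, Polynomial.coeff_C, if_neg (by norm_num)] at h1
    exact h1.symm
  obtain ⟨u, v, hu, hv, hu1, hv1, huv⟩ := forms hp0
  set A : ((Σ m' : Fin c, Fin (d m' - 1)) → K) → Fin c → MvPolynomial (Fin (2 + 1)) K :=
    fun a m' => ∑ i : Fin (d m' - 1), C (a ⟨m', i⟩) * (u ^ (i : ℕ) * v ^ (d m' - 2 - i)) with hA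
  have hA1 : ∀ a m', (A a m').IsHomogeneous (d m' - 2) := by
    intro a m'
    refine IsHomogeneous.sum _ _ _ fun i _ => ?_
    have h1 := (isHomogeneous_C (Fin (2 + 1)) (a ⟨m', i⟩)).mul
      ((hu.pow (i : ℕ)).mul (hv.pow (d m' - 2 - i)))
    have h2 : 0 + (1 * (i : ℕ) + 1 * (d m' - 2 - i)) = d m' - 2 := by
      have := i.2
      omega
    rwa [h2] at h1
  have hA2 : ∀ a m' (w : Fin (2 + 1) → K) (t : K),
      eval (fun j => w j + t * p j) (A a m') = eval w (A a m') := by
    intro a m' w t
    simp only [hA, map_sum, map_mul, map_pow, hu1, hv1, eval_C]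
  let Λ : ((Σ m' : Fin c, Fin (d m' - 1)) → K) →ₗ[K]
      (Fin c → Fin c → MvPolynomial (Fin (2 + 1)) K) :=
    { toFun := fun a m' m'' => if m'' = m then A a m' else 0
      map_add' := fun a a' => by
        funext m' m''
        simp only [Pi.add_apply]
        split_ifs
        · simp only [hA, Pi.add_apply, C_add, add_mul, Finset.sum_add_distrib]
        · rw [add_zero]
      map_smul' := fun e a => by
        funext m' m''
        simp only [Pi.smul_apply, RingHom.id_apply]
        split_ifs
        · simp only [hA, Pi.smul_apply, smul_eq_mul, C_mul, Finset.smul_sum, smul_eq_C_mul,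
            mul_assoc]
        · rw [smul_zero] }
  have hΛ : ∀ a m' m'', Λ a m' m'' = if m'' = m then A a m' else 0 := fun _ _ _ => rfl
  have hΛBF : ∀ a, Λ a ∈ BF K (Fin 3) d := by
    intro a m' m''
    rw [hΛ]
    by_cases h : m'' = m
    · subst h
      rw [if_pos rfl, hm]
      exact ⟨fun _ => hA1 a m', fun h1 => absurd (hT.two m') (by omega)⟩
    · rw [if_neg h]
      exact ⟨fun _ => isHomogeneous_zero _ _ _, fun _ => rfl⟩
  have hΛM : ∀ a, ((0 : Fin 3 → Fin 3 → K), Λ a) ∈ M → a = 0 := by
    intro a ha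
    obtain ⟨b, hb, hbe⟩ := hM.ff _ ha
    have h1 : ∀ m', A a m' * f m = q * b m' := by
      intro m'
      have h2 := congrFun hbe m'
      have h3 : af (0 : Fin 3 → Fin 3 → K) (f m') = 0 := by
        unfold af H75.lf
        simp
      simp only [Pi.add_apply] at h2
      rw [h3, zero_add] at h2
      have h4 : bmul (Λ a) f m' = A a m' * f m := by
        unfold bmul
        rw [Finset.sum_eq_single m]
        · rw [hΛ, if_pos rfl]
        · intro k _ hk
          rw [hΛ, if_neg hk, zero_mul]
        · intro h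
          exact absurd (Finset.mem_univ _) h
      rw [h4] at h2
      exact h2.symm
    have hfm : (f m).IsHomogeneous 2 := by
      have h6 := hN.hf m
      rwa [hm] at h6
    have h5 : ∀ m', A a m' = 0 := fun m' =>
      cone hN.hq hfm hp hne (hA2 a m') (h1 m')
    funext ⟨m', i⟩
    have h6 := comb huv (fun i => a ⟨m', i⟩) (h5 m')
    exact congrFun h6 i
  have := finite_BF (K := K) (Fin 3) d
  set M0 : Submodule K (Fin c → Fin c → MvPolynomial (Fin 3) K) :=
    M.comap (LinearMap.inr K (Fin 3 → Fin 3 → K) _) with hM0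
  have hM0BF : M0 ≤ BF K (Fin 3) d := fun B hB => hM.bf _ hB
  have : FiniteDimensional K M0 := Submodule.finiteDimensional_of_le hM0BF
  have k1 : Module.finrank K M0 + 5 ≤ Module.finrank K (BF K (Fin 3) d) := by
    let ψ : (M0 × ((Σ m' : Fin c, Fin (d m' - 1)) → K)) →ₗ[K] BF K (Fin 3) d :=
      LinearMap.codRestrict (BF K (Fin 3) d)
        ((M0.subtype.comp (LinearMap.fst K _ _)) + (Λ.comp (LinearMap.snd K _ _)))
        fun a => add_mem (hM0BF a.1.2) (hΛBF a.2)
    have hψ : Function.Injective ψ := by
      rw [← LinearMap.ker_eq_bot, LinearMap.ker_eq_bot']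
      rintro ⟨B, a⟩ h
      have h1 : (B : Fin c → Fin c → MvPolynomial (Fin 3) K) + Λ a = 0 :=
        congrArg Subtype.val h
      have h2 : Λ a ∈ M0 := by
        rw [← neg_eq_of_add_eq_zero_right h1]
        exact neg_mem B.2
      have h3 := hΛM a h2
      rw [h3, map_zero, add_zero] at h1
      rw [h3, Prod.mk_eq_zero]
      exact ⟨Subtype.ext h1, rfl⟩
    have h4 := LinearMap.finrank_le_finrank_of_injective hψ
    rw [Module.finrank_prod, Module.finrank_fintype_fun_eq_card, card_sig hT] at h4
    exact h4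
  have hMf : FiniteDimensional K M := by
    have h1 : M ≤ (⊤ : Submodule K (Fin 3 → Fin 3 → K)).prod (BF K (Fin 3) d) :=
      fun a ha => ⟨trivial, hM.bf a ha⟩
    have : FiniteDimensional K
        ((⊤ : Submodule K (Fin 3 → Fin 3 → K)).prod (BF K (Fin 3) d)) :=
      Module.Finite.iff_fg.2 ((Module.Finite.iff_fg.1 inferInstance).prod
        (Module.Finite.iff_fg.1 inferInstance))
    exact Submodule.finiteDimensional_of_le h1
  have k2 := LinearMap.finrank_range_add_finrank_ker
    ((LinearMap.fst K (Fin 3 → Fin 3 → K) (Fin c → Fin c → MvPolynomial (Fin 3) K)).domRestrict M)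
  have k3 : Module.finrank K (LinearMap.range ((LinearMap.fst K (Fin 3 → Fin 3 → K)
      (Fin c → Fin c → MvPolynomial (Fin 3) K)).domRestrict M)) ≤ 6 := by
    refine (Submodule.finrank_mono (t := Gq q y) ?_).trans (finrank_Gq hN.hq hN.q0 hN.y0)
    rintro _ ⟨a, rfl⟩
    exact ⟨hM.fy _ a.2, hM.fq _ a.2⟩
  have k4 : Module.finrank K (LinearMap.ker ((LinearMap.fst K (Fin 3 → Fin 3 → K)
      (Fin c → Fin c → MvPolynomial (Fin 3) K)).domRestrict M)) ≤ Module.finrank K M0 := by
    refine LinearMap.finrank_le_finrank_of_injective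
      (f := (((LinearMap.snd K (Fin 3 → Fin 3 → K)
        (Fin c → Fin c → MvPolynomial (Fin 3) K)).comp M.subtype).comp
        (Submodule.subtype _)).codRestrict M0 fun a => ?_) ?_
    · have h1 : (a.1.1).1 = 0 := LinearMap.mem_ker.1 a.2
      have h2 := a.1.2
      change ((0 : Fin 3 → Fin 3 → K), a.1.1.2) ∈ M
      rw [← h1]
      exact h2
    · intro a b hab
      have h1 : (a.1.1).1 = 0 := LinearMap.mem_ker.1 a.2
      have h2 : (b.1.1).1 = 0 := LinearMap.mem_ker.1 b.2
      have h3 : a.1.1.2 = b.1.1.2 := congrArg Subtype.val hab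
      exact Subtype.ext (Subtype.ext (Prod.ext (h1.trans h2.symm) h3))
  have k5 := hM.dim
  omega

end Pool.Agent.T2C.H59
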