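import Pool.Agent.Lib.MP_c7af3c_ag.EDGE.H65.NoFactor

/-!
# MP_c7af3c_ag, project T2C: the count for parametrised surfaces (helper59)

`D : DSys L n c d`, `ψ : Fin s → MvPolynomial τ L` with constant coefficients, `P : Fin s → L^(n+1)`
independent, `psub` the substitution `X_j ↦ ∑ i, P i j * ψ i`. If all `psub (F m) = h * g m`, then
the map `(λ, μ, c) ↦ λ g m + h μ m + ∑ p, psub (∂_p F m) ∑ i, c i p ψ i` is onto, and every
symmetry of `ψ` gives an element of its kernel.
-/

set_option autoImplicit false

namespace Pool.Agent.T2C.H59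

open MvPolynomial Pool.Agent.Gen Pool.Agent.Sharp.H75
open Pool.Agent.Edge.H65 (dco_F)

section cnt

variable {L : Type} [Field L] {n c s : ℕ} {τ : Type} {d : Fin c → ℕ}
  (ψ : Fin s → MvPolynomial τ L) (P : Fin s → Fin (n + 1) → L)

/-- the parametrised restriction -/
noncomputable def psub : MvPolynomial (Fin (n + 1)) L →ₐ[L] MvPolynomial τ L :=
  aeval fun j => ∑ i, C (P i j) * ψ i

theorem psub_X (j : Fin (n + 1)) : psub ψ P (X j) = ∑ i, C (P i j) * ψ i := by
  unfold psub
  rw [aeval_X]

theorem psub_C (a : L) : psub ψ P (C a) = C a := by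
  unfold psub
  rw [aeval_C]
  rfl

theorem dco_psub (δ : Derivation ℤ L L) (hψ : ∀ i, dco δ (ψ i) = 0)
    (F : MvPolynomial (Fin (n + 1)) L) :
    dco δ (psub ψ P F) = psub ψ P (dco δ F) +
      ∑ p, psub ψ P (pderiv p F) * ∑ i, C (δ (P i p)) * ψ i := by
  classical
  induction F using MvPolynomial.induction_on with
  | C a =>
    rw [psub_C, dco_C, dco_C, psub_C]
    simp
  | add F G hF hG =>
    rw [map_add, dco_add, hF, hG, dco_add, map_add]
    simp only [map_add, add_mul, Finset.sum_add_distrib]
    ring
  | mul_X F j hF =>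
    rw [map_mul, dco_mul, hF, dco_mul, dco_X, mul_zero, add_zero, map_mul]
    have h1 : dco δ (psub ψ P (X j)) = ∑ i, C (δ (P i j)) * ψ i := by
      rw [psub_X, dco_sum]
      refine Finset.sum_congr rfl fun i _ => ?_
      rw [dco_mul, dco_C, hψ, mul_zero, add_zero]
    have h2 : ∀ p, psub ψ P (pderiv p (F * X j)) * ∑ i, C (δ (P i p)) * ψ i =
        psub ψ P (pderiv p F) * (∑ i, C (δ (P i p)) * ψ i) * psub ψ P (X j) +
          if p = j then psub ψ P F * ∑ i, C (δ (P i p)) * ψ i else 0 := by
      intro p
      rw [Derivation.leibniz]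
      simp only [smul_eq_mul]
      rw [map_add, map_mul, map_mul]
      split_ifs with h
      · subst h
        rw [pderiv_X_self, map_one]
        ring
      · rw [pderiv_X_of_ne (Ne.symm h), map_zero]
        ring
    simp only [h2, Finset.sum_add_distrib, h1, Finset.sum_ite_eq', Finset.mem_univ, if_true]
    rw [add_mul, Finset.sum_mul]
    ring

/-- the chain rule -/
theorem der_psub (θ : Derivation L (MvPolynomial τ L) (MvPolynomial τ L))
    (F : MvPolynomial (Fin (n + 1)) L) :
    θ (psub ψ P F) = ∑ p, psub ψ P (pderiv p F) * ∑ i, C (P i p) * θ (ψ i) := by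
  classical
  induction F using MvPolynomial.induction_on with
  | C a =>
    rw [psub_C]
    have h1 : θ (C a) = 0 := θ.map_algebraMap a
    rw [h1]
    simp
  | add F G hF hG =>
    rw [map_add, map_add, hF, hG]
    simp only [map_add, add_mul, Finset.sum_add_distrib]
  | mul_X F j hF =>
    rw [map_mul, Derivation.leibniz, hF]
    have h1 : θ (psub ψ P (X j)) = ∑ i, C (P i j) * θ (ψ i) := by
      rw [psub_X, map_sum]
      refine Finset.sum_congr rfl fun i _ => ?_
      have h2 : θ (C (P i j)) = 0 := θ.map_algebraMap _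
      rw [Derivation.leibniz, h2, smul_zero, add_zero, smul_eq_mul]
    have h2 : ∀ p, psub ψ P (pderiv p (F * X j)) * ∑ i, C (P i p) * θ (ψ i) =
        psub ψ P (pderiv p F) * (∑ i, C (P i p) * θ (ψ i)) * psub ψ P (X j) +
          if p = j then psub ψ P F * ∑ i, C (P i p) * θ (ψ i) else 0 := by
      intro p
      rw [Derivation.leibniz]
      simp only [smul_eq_mul]
      rw [map_add, map_mul, map_mul]
      split_ifs with h
      · subst h
        rw [pderiv_X_self, map_one]
        ring
      · rw [pderiv_X_of_ne (Ne.symm h), map_zero]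
        ring
    simp only [h2, Finset.sum_add_distrib, h1, Finset.sum_ite_eq', Finset.mem_univ, if_true,
      smul_eq_mul]
    rw [← Finset.sum_mul]
    ring

theorem euler_psub {F : MvPolynomial (Fin (n + 1)) L} {e : ℕ} (hF : F.IsHomogeneous e) :
    ∑ p, psub ψ P (pderiv p F) * ∑ i, C (P i p) * ψ i = C (e : L) * psub ψ P F := by
  have h1 := congrArg (psub ψ P) hF.sum_X_mul_pderiv
  rw [map_sum] at h1
  rw [map_natCast, ← nsmul_eq_mul, ← map_nsmul, ← h1]
  refine Finset.sum_congr rfl fun p _ => ?_
  rw [map_mul, psub_X, mul_comm]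

/-- a symmetry of the parametrisation -/
structure Sym (d : Fin c → ℕ) (ψ : Fin s → MvPolynomial τ L)
    (E : Submodule L (MvPolynomial τ L)) (E' : Fin c → Submodule L (MvPolynomial τ L))
    (h : MvPolynomial τ L) (g : Fin c → MvPolynomial τ L) (e : L) (a : MvPolynomial τ L)
    (θ : Derivation L (MvPolynomial τ L) (MvPolynomial τ L)) (M : Fin s → Fin s → L) :
    Prop where
  mat : ∀ i, a * ψ i + θ (ψ i) = ∑ j, C (M i j) * ψ j
  hE : C e * a * h + θ h ∈ E
  gE : ∀ m, C ((d m : L) - e) * a * g m + θ (g m) ∈ E' m

variable (D : DSys L n c d)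

/-- the map of the count -/
noncomputable def Psi (E : Submodule L (MvPolynomial τ L))
    (E' : Fin c → Submodule L (MvPolynomial τ L)) (h : MvPolynomial τ L)
    (g : Fin c → MvPolynomial τ L) :
    (E × (∀ m, E' m)) × (Fin s → Fin (n + 1) → L) →ₗ[L] (Fin c → MvPolynomial τ L) where
  toFun z m := (z.1.1 : MvPolynomial τ L) * g m + h * (z.1.2 m : MvPolynomial τ L) +
    ∑ p, psub ψ P (pderiv p (D.F m)) * ∑ i, C (z.2 i p) * ψ i
  map_add' z z' := by
    funext m
    simp only [Prod.fst_add, Prod.snd_add, Submodule.coe_add, Pi.add_apply, C_add, add_mul,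
      Finset.sum_add_distrib, mul_add]
    ring
  map_smul' a z := by
    funext m
    simp only [Prod.smul_fst, Prod.smul_snd, Submodule.coe_smul, Pi.smul_apply, RingHom.id_apply,
      smul_eq_C_mul, smul_eq_mul, C_mul]
    rw [mul_add, mul_add, Finset.mul_sum]
    refine congrArg₂ _ (by ring) (Finset.sum_congr rfl fun p _ => ?_)
    rw [mul_left_comm]
    refine congrArg _ ?_
    rw [Finset.mul_sum]
    exact Finset.sum_congr rfl fun i _ => by ring

theorem Psi_apply (E : Submodule L (MvPolynomial τ L))
    (E' : Fin c → Submodule L (MvPolynomial τ L)) (h : MvPolynomial τ L)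
    (g : Fin c → MvPolynomial τ L) (z : (E × (∀ m, E' m)) × (Fin s → Fin (n + 1) → L))
    (m : Fin c) :
    Psi ψ P D E E' h g z m = (z.1.1 : MvPolynomial τ L) * g m +
      h * (z.1.2 m : MvPolynomial τ L) +
        ∑ p, psub ψ P (pderiv p (D.F m)) * ∑ i, C (z.2 i p) * ψ i := rfl

/-- **the count** -/
theorem count {ι : Type} [Fintype ι] (hP : LinearIndependent L P)
    (hψ : ∀ (δ : Derivation ℤ L L) i, dco δ (ψ i) = 0)
    (B : Fin c → Submodule L (MvPolynomial τ L)) [∀ m, FiniteDimensional L (B m)]
    (hB : ∀ m, ∀ z ∈ B m, ∃ A : MvPolynomial (Fin (n + 1)) L, A.IsHomogeneous (d m) ∧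
      psub ψ P A = z)
    (E : Submodule L (MvPolynomial τ L)) [FiniteDimensional L E]
    (E' : Fin c → Submodule L (MvPolynomial τ L)) [∀ m, FiniteDimensional L (E' m)]
    (hEd : ∀ (δ : Derivation ℤ L L), ∀ z ∈ E, dco δ z ∈ E)
    (hEd' : ∀ (δ : Derivation ℤ L L) m, ∀ z ∈ E' m, dco δ z ∈ E' m)
    {h : MvPolynomial τ L} (hE : h ∈ E) (h0 : h ≠ 0) {g : Fin c → MvPolynomial τ L}
    (hg : ∀ m, g m ∈ E' m) (hF : ∀ m, psub ψ P (D.F m) = h * g m)
    (e : ι → L) (a : ι → MvPolynomial τ L)
    (θ : ι → Derivation L (MvPolynomial τ L) (MvPolynomial τ L)) (M : ι → Fin s → Fin s → L)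
    (hS : ∀ k, Sym d ψ E E' h g (e k) (a k) (θ k) (M k)) (hM : LinearIndependent L M) :
    ∑ m, Module.finrank L (B m) + (Fintype.card ι + 1) ≤
      Module.finrank L E + ∑ m, Module.finrank L (E' m) + s * (n + 1) := by
  classical
  have hrn := LinearMap.finrank_range_add_finrank_ker (Psi ψ P D E E' h g)
  rw [Module.finrank_prod, Module.finrank_prod, Module.finrank_pi_fintype] at hrn
  have h3 : Module.finrank L (Fin s → Fin (n + 1) → L) = s * (n + 1) := by
    rw [Module.finrank_pi_fintype]
    simp
  rw [h3] at hrn
  -- the kernel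
  have hker : Fintype.card ι + 1 ≤ Module.finrank L (LinearMap.ker (Psi ψ P D E E' h g)) := by
    let v : Option ι → (E × (∀ m, E' m)) × (Fin s → Fin (n + 1) → L) :=
      fun o => match o with
      | none => ((⟨h, hE⟩, fun m => ⟨- g m, (E' m).neg_mem (hg m)⟩), 0)
      | some k => ((⟨- (C (e k) * a k * h + θ k h), E.neg_mem (hS k).hE⟩,
          fun m => ⟨- (C ((d m : L) - e k) * a k * g m + θ k (g m)),
            (E' m).neg_mem ((hS k).gE m)⟩), fun j p => ∑ i, M k i j * P i p)
    have hvk : ∀ o, v o ∈ LinearMap.ker (Psi ψ P D E E' h g) := by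
      intro o
      rw [LinearMap.mem_ker]
      funext m
      rw [Psi_apply]
      rcases o with _ | k
      · simp only [v, Pi.zero_apply, C_0, zero_mul, Finset.sum_const_zero, mul_zero, add_zero]
        ring
      · simp only [v]
        have h1 := der_psub ψ P (θ k) (D.F m)
        have h2 := euler_psub ψ P (D.hom m)
        have h4 : ∑ p, psub ψ P (pderiv p (D.F m)) *
            ∑ j, C (∑ i, M k i j * P i p) * ψ j =
            a k * (C (d m : L) * psub ψ P (D.F m)) + θ k (psub ψ P (D.F m)) := by
          rw [h1, ← h2, Finset.mul_sum, ← Finset.sum_add_distrib]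
          refine Finset.sum_congr rfl fun p _ => ?_
          have h5 : ∑ j, C (∑ i, M k i j * P i p) * ψ j =
              ∑ i, C (P i p) * (a k * ψ i + θ k (ψ i)) := by
            have h6 : ∀ i, C (P i p) * (a k * ψ i + θ k (ψ i)) =
                ∑ j, C (M k i j * P i p) * ψ j := by
              intro i
              rw [(hS k).mat i, Finset.mul_sum]
              refine Finset.sum_congr rfl fun j _ => ?_
              rw [C_mul]
              ring
            simp only [h6]
            rw [Finset.sum_comm]
            refine Finset.sum_congr rfl fun j _ => ?_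
            rw [map_sum, Finset.sum_mul]
          rw [h5]
          simp only [mul_add, Finset.sum_add_distrib]
          congr 1
          rw [Finset.mul_sum, Finset.mul_sum, Finset.mul_sum]
          refine Finset.sum_congr rfl fun i _ => ?_
          ring
        rw [h4, hF m, Derivation.leibniz, Pi.zero_apply, C_sub]
        simp only [smul_eq_mul]
        ring
    have hvi : LinearIndependent L v := by
      rw [Fintype.linearIndependent_iff]
      intro b hb
      rw [Fintype.sum_option] at hb
      have h1 : ∀ k, b (some k) = 0 := by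
        have h2 : ∀ i j, ∑ k, b (some k) * M k i j = 0 := by
          intro i j
          have h4 := congrFun (congrArg Prod.snd hb) j
          rw [Prod.snd_add, Prod.smul_snd, Prod.snd_sum] at h4
          simp only [v, smul_zero, zero_add, Prod.smul_snd, Prod.snd_zero] at h4
          rw [Finset.sum_apply, Pi.zero_apply] at h4
          have h5 : ∑ i, (∑ k, b (some k) * M k i j) • P i = 0 := by
            rw [← h4]
            funext p
            rw [Finset.sum_apply, Finset.sum_apply]
            simp only [Pi.smul_apply, smul_eq_mul, Finset.mul_sum, Finset.sum_mul]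
            rw [Finset.sum_comm]
            refine Finset.sum_congr rfl fun k _ => Finset.sum_congr rfl fun i _ => ?_
            ring
          exact Fintype.linearIndependent_iff.1 hP _ h5 i
        refine Fintype.linearIndependent_iff.1 hM (fun k => b (some k)) ?_
        funext i j
        rw [Finset.sum_apply, Finset.sum_apply]
        exact h2 i j
      have h2 : b none = 0 := by
        simp only [h1, zero_smul, Finset.sum_const_zero, add_zero] at hb
        have h3 := congrArg (fun z => (z.1.1 : MvPolynomial τ L)) hb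
        have h4 : b none • h = 0 := h3
        exact (smul_eq_zero.1 h4).resolve_right h0
      rintro (_ | k)
      · exact h2
      · exact h1 k
    have h5 : Submodule.span L (Set.range v) ≤ LinearMap.ker (Psi ψ P D E E' h g) :=
      Submodule.span_le.2 (by rintro _ ⟨o, rfl⟩; exact hvk o)
    have h6 := Submodule.finrank_mono h5
    rw [finrank_span_eq_card hvi, Fintype.card_option] at h6
    exact h6
  -- the range
  have hran : ∑ m, Module.finrank L (B m) ≤
      Module.finrank L (LinearMap.range (Psi ψ P D E E' h g)) := by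
    let κ : (∀ m, B m) →ₗ[L] (Fin c → MvPolynomial τ L) :=
      LinearMap.pi fun m => (B m).subtype ∘ₗ LinearMap.proj m
    have hκ : Function.Injective κ := by
      intro z z' h
      funext m
      exact Subtype.ext (congrFun h m)
    have h1 : Module.finrank L (LinearMap.range κ) = ∑ m, Module.finrank L (B m) := by
      rw [LinearMap.finrank_range_of_inj hκ, Module.finrank_pi_fintype]
    rw [← h1]
    refine Submodule.finrank_mono ?_
    -- single monomials
    have h2 : ∀ (m : Fin c) (I : Fin (n + 1) →₀ ℕ), I.degree = d m →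
        (Pi.single m (psub ψ P (monomial I 1)) : Fin c → MvPolynomial τ L) ∈
          LinearMap.range (Psi ψ P D E E' h g) := by
      intro m I hI
      refine ⟨((⟨dco (D.del m I) h, hEd _ _ hE⟩,
        fun m' => ⟨dco (D.del m I) (g m'), hEd' _ m' _ (hg m')⟩),
          fun i p => - D.del m I (P i p)), ?_⟩
      funext m'
      rw [Psi_apply]
      simp only
      have h3 := dco_psub ψ P (D.del m I) (hψ _) (D.F m')
      rw [hF m', dco_mul, dco_F D m m' I hI] at h3
      have h4 : ∑ p, psub ψ P (pderiv p (D.F m')) * ∑ i, C (- D.del m I (P i p)) * ψ i =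
          - ∑ p, psub ψ P (pderiv p (D.F m')) * ∑ i, C (D.del m I (P i p)) * ψ i := by
        rw [← Finset.sum_neg_distrib]
        refine Finset.sum_congr rfl fun p _ => ?_
        rw [← mul_neg, ← Finset.sum_neg_distrib]
        refine congrArg _ (Finset.sum_congr rfl fun i _ => ?_)
        rw [C_neg, neg_mul]
      rw [h4, h3]
      by_cases hm : m = m'
      · subst hm
        rw [if_pos rfl, Pi.single_eq_same]
        ring
      · rw [if_neg hm, Pi.single_eq_of_ne (Ne.symm hm), map_zero]
        ring
    have h3 : ∀ (m : Fin c) (A : MvPolynomial (Fin (n + 1)) L), A.IsHomogeneous (d m) →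
        (Pi.single m (psub ψ P A) : Fin c → MvPolynomial τ L) ∈
          LinearMap.range (Psi ψ P D E E' h g) := by
      intro m A hA
      have h4 : (Pi.single m (psub ψ P A) : Fin c → MvPolynomial τ L) =
          ∑ I ∈ A.support, coeff I A • Pi.single m (psub ψ P (monomial I 1)) := by
        conv_lhs => rw [A.as_sum]
        rw [map_sum]
        have h5 := map_sum (LinearMap.single L (fun _ : Fin c => MvPolynomial τ L) m)
          (fun I => psub ψ P (monomial I (coeff I A))) A.support
        simp only [LinearMap.coe_single] at h5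
        rw [h5]
        refine Finset.sum_congr rfl fun I _ => ?_
        rw [← Pi.single_smul, ← map_smul, smul_monomial, smul_eq_mul, mul_one]
      rw [h4]
      refine Submodule.sum_mem _ fun I hI => Submodule.smul_mem _ _ (h2 m I ?_)
      have h6 := hA (mem_support_iff.1 hI)
      rw [Finsupp.degree_eq_weight_one]
      exact h6
    rintro _ ⟨z, rfl⟩
    have h4 : κ z = ∑ m, (Pi.single m (z m : MvPolynomial τ L) :
        Fin c → MvPolynomial τ L) := by
      rw [Finset.univ_sum_single]
      rfl
    rw [h4]
    refine Submodule.sum_mem _ fun m _ => ?_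
    obtain ⟨A, hA, hA'⟩ := hB m _ (z m).2
    rw [← hA']
    exact h3 m A hA
  omega

end cnt

end Pool.Agent.T2C.H59
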